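import Pool.Agent.Q228.Rep.Fin

/-!
# The smallest rep-cube with all edge nets has order 13; the 20 one-sided nets form a rep-cube

Definitions (file `Pool/Agent/Q228/Rep/NetDefs.lean`): `IsNet A l` (the polyomino `A` folds onto the
cube of edge `l`, creases arbitrary), `IsEdgeNet` (rolling the cube over the six squares shows each
face once), `Congruent`, `RotCongruent`, `NoHoles`, `RepCube k P Q` (`P` has `6 k` cells, is a net
of the cube of edge `√k` and is the disjoint union of the `k` members of `Q`, all nets of the unit
cube).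
-/

set_option autoImplicit false

namespace Pool.Agent.Results.MP_a49afe_co.ThirteenAndTwenty

open Pool.Agent.Helper697.Rep Pool.Agent.Q228.Rep

/-- (1) 13 is the least order of a rep-cube that contains all edge nets of the unit cube up to
congruence; (2) there is one of order 13 without holes all of whose pieces are edge nets;
(3) there is a rep-cube of order 20 without holes, with edge nets as pieces, such that every edge
net is the image of exactly one piece under rotations and translations. -/
theorem result :
    IsLeast {k : ℕ | ∃ P Q, RepCube k P Q ∧ ∀ N, IsEdgeNet N → ∃ A ∈ Q, Congruent N A} 13 ∧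
    (∃ P Q, RepCube 13 P Q ∧ NoHoles P ∧ (∀ A ∈ Q, NoHoles A) ∧ (∀ A ∈ Q, IsEdgeNet A) ∧
      ∀ N, IsEdgeNet N → ∃ A ∈ Q, Congruent N A) ∧
    (∃ P Q, RepCube 20 P Q ∧ NoHoles P ∧ (∀ A ∈ Q, NoHoles A) ∧ (∀ A ∈ Q, IsEdgeNet A) ∧
      ∀ N, IsEdgeNet N → ∃! A, A ∈ Q ∧ RotCongruent N A) :=
  ⟨least13, exists13, exists20⟩

end Pool.Agent.Results.MP_a49afe_co.ThirteenAndTwenty
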